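import Pool.Agent.Helper93.ML.FinalDefs

/-! # From the combinatorial Morse limitedness to the metric one (module M10a) -/

namespace Pool.Agent.Helper44.ML
open Pool.Agent.Helper93.ML

/-! ## Words and geodesics -/

section words
variable {G : Type} [Group G] (M : Mark G)

theorem ev_append (w w' : List Ltr) : M.ev (w ++ w') = M.ev w * M.ev w' := by
  simp [Mark.ev]

theorem ev_invw (w : List Ltr) : M.ev (invw w) = (M.ev w)⁻¹ := by
  induction w with
  | nil => simp [Mark.ev, invw]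
  | cons x w ih =>
    have h1 : invw (x :: w) = invw w ++ [inv1 x] := by simp [invw]
    have h2 : M.ev (x :: w) = M.s x * M.ev w := by simp [Mark.ev]
    rw [h1, ev_append, ih, h2, mul_inv_rev]
    simp [Mark.ev, M.s_inv]

theorem exists_word (g : G) : ∃ w, M.ev w = g := by
  have hg : g ∈ Subgroup.closure (Set.range M.s) := by rw [M.gen]; trivial
  refine Subgroup.closure_induction ?_ ?_ ?_ ?_ hg
  · rintro _ ⟨x, rfl⟩
    exact ⟨[x], by simp [Mark.ev]⟩
  · exact ⟨[], by simp [Mark.ev]⟩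
  · rintro _ _ - - ⟨w, rfl⟩ ⟨w', rfl⟩
    exact ⟨w ++ w', ev_append M w w'⟩
  · rintro _ - ⟨w, rfl⟩
    exact ⟨invw w, ev_invw M w⟩

theorem exists_geod_word (g : G) : ∃ w, M.ev w = g ∧ w.length = M.len g := by
  have h : (({n | ∃ w, M.ev w = g ∧ w.length = n} : Set ℕ)).Nonempty := by
    obtain ⟨w, hw⟩ := exists_word M g
    exact ⟨w.length, w, hw, rfl⟩
  exact Nat.sInf_mem h

theorem len_ev_le (w : List Ltr) : M.len (M.ev w) ≤ w.length :=
  Nat.sInf_le ⟨w, rfl, rfl⟩

/-- geodesics between group elements, given the triangle inequality -/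
theorem exists_geod (tri : ∀ x y z : G, M.d x z ≤ M.d x y + M.d y z) (g h : G) :
    ∃ σ : ℕ → G, σ 0 = g ∧ σ (M.d g h) = h ∧
      ∀ i j, i ≤ j → j ≤ M.d g h → M.d (σ i) (σ j) = j - i := by
  obtain ⟨w, hw, hl⟩ := exists_geod_word M (g⁻¹ * h)
  have hn : M.d g h = w.length := hl.symm
  have hσ0 : g * M.ev (w.take 0) = g := by simp [Mark.ev]
  have hσn : g * M.ev (w.take w.length) = h := by
    rw [List.take_length, hw]; group
  have hle : ∀ i j, i ≤ j → j ≤ w.length →
      M.d (g * M.ev (w.take i)) (g * M.ev (w.take j)) ≤ j - i := by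
    intro i j hij hj
    have h1 : w.take j = w.take i ++ (w.take j).drop i := by
      conv_lhs => rw [← List.take_append_drop i (w.take j)]
      rw [List.take_take, min_eq_left hij]
    have h2 : (g * M.ev (w.take i))⁻¹ * (g * M.ev (w.take j)) = M.ev ((w.take j).drop i) := by
      conv_lhs => rw [h1, ev_append]
      group
    show M.len _ ≤ _
    rw [h2]
    refine (len_ev_le M _).trans ?_
    rw [List.length_drop, List.length_take, min_eq_left hj]
  refine ⟨fun k => g * M.ev (w.take k), hσ0, by rw [hn]; exact hσn, fun i j hij hj => ?_⟩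
  rw [hn] at hj
  have h0 : M.d (g * M.ev (w.take 0)) (g * M.ev (w.take w.length)) = w.length := by
    rw [hσ0, hσn, hn]
  have h1 := tri (g * M.ev (w.take 0)) (g * M.ev (w.take i)) (g * M.ev (w.take w.length))
  have h2 := tri (g * M.ev (w.take i)) (g * M.ev (w.take j)) (g * M.ev (w.take w.length))
  have h3 := hle 0 i (Nat.zero_le _) (hij.trans hj)
  have h4 := hle i j hij hj
  have h5 := hle j w.length hj le_rfl
  show M.d (g * M.ev (w.take i)) (g * M.ev (w.take j)) = j - i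
  omega

end words

/-! ## A discrete intermediate value lemma -/

theorem ivt_up (f : ℕ → ℝ) {a b : ℕ} (hab : a ≤ b) {L c : ℝ} (hL0 : 0 ≤ L)
    (hL : ∀ k, a ≤ k → k < b → |f (k + 1) - f k| ≤ L) (h1 : f a ≤ c) (h2 : c ≤ f b) :
    ∃ k, a ≤ k ∧ k ≤ b ∧ |f k - c| ≤ L := by
  induction b, hab using Nat.le_induction with
  | base => exact ⟨a, le_rfl, le_rfl, by rw [le_antisymm h1 h2, sub_self, abs_zero]; exact hL0⟩
  | succ b hab ih =>
    by_cases h3 : c ≤ f b
    · obtain ⟨k, hk1, hk2, hk3⟩ := ih (fun k h4 h5 => hL k h4 (by omega)) h3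
      exact ⟨k, hk1, by omega, hk3⟩
    · rw [not_le] at h3
      refine ⟨b + 1, by omega, le_rfl, ?_⟩
      have h4 := hL b hab (by omega)
      rw [abs_le] at h4 ⊢
      constructor <;> linarith [h4.1, h4.2]

theorem ivt (f : ℕ → ℝ) {a b : ℕ} (hab : a ≤ b) {L c : ℝ} (hL0 : 0 ≤ L)
    (hL : ∀ k, a ≤ k → k < b → |f (k + 1) - f k| ≤ L)
    (h : (f a ≤ c ∧ c ≤ f b) ∨ (f b ≤ c ∧ c ≤ f a)) : ∃ k, a ≤ k ∧ k ≤ b ∧ |f k - c| ≤ L := by
  rcases h with h | h
  · exact ivt_up f hab hL0 hL h.1 h.2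
  · obtain ⟨k, h1, h2, h3⟩ := ivt_up (fun k => -f k) (c := -c) hab hL0 (fun k h1 h2 => by
      rw [show -f (k + 1) - -f k = -(f (k + 1) - f k) by ring, abs_neg]
      exact hL k h1 h2) (neg_le_neg h.2) (neg_le_neg h.1)
    refine ⟨k, h1, h2, ?_⟩
    rwa [show -f k - -c = -(f k - c) by ring, abs_neg] at h3

theorem between (x y z : ℝ) : ((x ≤ z ∧ z ≤ y) ∨ (y ≤ z ∧ z ≤ x)) ∨
    ((z ≤ x ∧ x ≤ y) ∨ (y ≤ x ∧ x ≤ z)) ∨ ((x ≤ y ∧ y ≤ z) ∨ (z ≤ y ∧ y ≤ x)) := by
  rcases le_total x y with h1 | h1 <;> rcases le_total y z with h2 | h2 <;>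
    rcases le_total x z with h3 | h3 <;> tauto

/-! ## Discrete paths as quasi-geodesics on a real interval with modified endpoints -/

section metric
variable {X : Type} [MetricSpace X]

/-- the quasi-geodesic associated with a sequence of points `p 0, …, p N`, endpoints replaced -/
noncomputable def ext (p : ℕ → X) (N : ℕ) (A B : X) (x : ℝ) : X :=
  open Classical in if x = 0 then A else if x = N then B else p ⌊x⌋₊

theorem ext_near {p : ℕ → X} {N : ℕ} {A B : X} {r : ℝ} (hr : 0 ≤ r)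
    (hA : dist (p 0) A ≤ r) (hB : dist (p N) B ≤ r) (x : ℝ) :
    dist (p ⌊x⌋₊) (ext p N A B x) ≤ r := by
  unfold ext
  split_ifs with h1 h2
  · rw [h1, Nat.floor_zero]; exact hA
  · rw [h2, Nat.floor_natCast]; exact hB
  · rw [dist_self]; exact hr

theorem ext_qg {p : ℕ → X} {N : ℕ} {A B : X} {r C : ℝ} (hr : 0 ≤ r) (hC : 1 ≤ C)
    (hA : dist (p 0) A ≤ r) (hB : dist (p N) B ≤ r)
    (hlo : ∀ a b : ℕ, a ≤ b → b ≤ N → ((b : ℝ) - a) / C ≤ dist (p a) (p b))
    (hhi : ∀ a b : ℕ, a ≤ b → b ≤ N → dist (p a) (p b) ≤ (b : ℝ) - a) :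
    Fin.IsQG C (1 + 2 * r) (Set.Icc 0 (N : ℝ)) (ext p N A B) := by
  have hC0 : 0 < C := by linarith
  -- for ordered parameters
  have key : ∀ x y : ℝ, 0 ≤ x → x ≤ y → y ≤ N →
      |x - y| / C - (1 + 2 * r) ≤ dist (ext p N A B x) (ext p N A B y) ∧
        dist (ext p N A B x) (ext p N A B y) ≤ C * |x - y| + (1 + 2 * r) := by
    intro x y hx hxy hy
    have hy0 : 0 ≤ y := hx.trans hxy
    have hfl : ⌊x⌋₊ ≤ ⌊y⌋₊ := Nat.floor_mono hxy
    have hfN : ⌊y⌋₊ ≤ N := by
      have := Nat.floor_mono hy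
      rwa [Nat.floor_natCast] at this
    have e1 := ext_near (p := p) (N := N) hr hA hB x
    have e2 := ext_near (p := p) (N := N) hr hA hB y
    have f1 := Nat.floor_le hx
    have f2 := Nat.lt_floor_add_one x
    have f3 := Nat.floor_le hy0
    have f4 := Nat.lt_floor_add_one y
    have g1 := hlo _ _ hfl hfN
    have g2 := hhi _ _ hfl hfN
    have habs : |x - y| = y - x := by rw [abs_sub_comm, abs_of_nonneg (by linarith)]
    rw [habs]
    have t1 : dist (p ⌊x⌋₊) (p ⌊y⌋₊) ≤ r + dist (ext p N A B x) (ext p N A B y) + r := by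
      calc dist (p ⌊x⌋₊) (p ⌊y⌋₊) ≤ dist (p ⌊x⌋₊) (ext p N A B x) +
            dist (ext p N A B x) (p ⌊y⌋₊) := dist_triangle _ _ _
        _ ≤ dist (p ⌊x⌋₊) (ext p N A B x) + (dist (ext p N A B x) (ext p N A B y) +
            dist (ext p N A B y) (p ⌊y⌋₊)) := by gcongr; exact dist_triangle _ _ _
        _ ≤ _ := by rw [dist_comm (ext p N A B y)]; linarith
    have t2 : dist (ext p N A B x) (ext p N A B y) ≤ r + dist (p ⌊x⌋₊) (p ⌊y⌋₊) + r := by
      calc dist (ext p N A B x) (ext p N A B y) ≤ dist (ext p N A B x) (p ⌊x⌋₊) +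
            dist (p ⌊x⌋₊) (ext p N A B y) := dist_triangle _ _ _
        _ ≤ dist (ext p N A B x) (p ⌊x⌋₊) + (dist (p ⌊x⌋₊) (p ⌊y⌋₊) +
            dist (p ⌊y⌋₊) (ext p N A B y)) := by gcongr; exact dist_triangle _ _ _
        _ ≤ _ := by rw [dist_comm (ext p N A B x)]; linarith
    constructor
    · have h1 : (y - x) / C - 1 ≤ ((⌊y⌋₊ : ℝ) - ⌊x⌋₊) / C := by
        rw [sub_le_iff_le_add, ← sub_le_iff_le_add', ← sub_div, div_le_iff₀ hC0]
        nlinarith
      linarith
    · have h1 : y - x ≤ C * (y - x) := by nlinarith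
      linarith
  intro x hx y hy
  rcases le_total x y with h | h
  · exact key x y hx.1 h hy.2
  · have := key y x hy.1 h hx.2
    rw [abs_sub_comm, dist_comm]
    exact this

end metric

/-! ## The theorem -/

/-- MODULE M10a -/
theorem morseLimited {G : Type} [Group G] (M : Mark G) (hML : MLProp M) {X : Type}
    [MetricSpace X] (ι : G → X) (isom : ∀ g h : G, dist (ι g) (ι h) = M.d g h)
    (dense : ∀ x : X, ∃ g : G, dist x (ι g) ≤ 1) : Fin.MorseLimited X := by
  intro Mo hMo lam eps hlam heps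
  have hlam0 : 0 < lam := by linarith
  have tri : ∀ x y z : G, M.d x z ≤ M.d x y + M.d y z := by
    intro x y z
    have := dist_triangle (ι x) (ι y) (ι z)
    rw [isom, isom, isom] at this
    exact_mod_cast this
  obtain ⟨C, hC⟩ := hML
  -- constants
  set C' : ℝ := max (C : ℝ) 1 with hC'
  have hC1 : 1 ≤ C' := le_max_right _ _
  have hCC : (C : ℝ) ≤ C' := le_max_left _ _
  have hC'0 : 0 < C' := by linarith
  set r0 : ℝ := Mo 1 3 + 1 with hr0
  have hM0 : 0 ≤ Mo 1 3 := hMo 1 3 le_rfl (by norm_num)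
  have hr01 : 1 ≤ r0 := by linarith
  set e1 : ℝ := 1 + 2 * r0 with he1
  have hM1 : 0 ≤ Mo C' e1 := hMo C' e1 hC1 (by linarith)
  set r1 : ℝ := Mo C' e1 + 1 + r0 with hr1
  have hr10 : 0 ≤ r1 := by linarith
  set L : ℝ := lam * (eps + 2 * r1 + 1) with hL
  have hL0 : 0 ≤ L := by positivity
  set Rc : ℝ := 2 * r1 + lam * L + eps with hRc
  obtain ⟨n0, hn0⟩ := hC ⌈Rc⌉₊
  refine ⟨lam * (n0 + 1 + eps + 2), by positivity, ?_⟩
  intro I γ hI hγ hMorse s hs t ht
  by_contra hcon
  rw [not_le] at hcon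
  -- the geodesic
  obtain ⟨gs, hgs⟩ := dense (γ s)
  obtain ⟨gt, hgt⟩ := dense (γ t)
  obtain ⟨σ, hσ0, hσn, hσ⟩ := exists_geod M tri gs gt
  set n := M.d gs gt with hn
  have hnlarge : (n0 : ℝ) + 1 ≤ n := by
    have h1 := (hγ s hs t ht).1
    have h2 : dist (γ s) (γ t) ≤ 1 + n + 1 := by
      calc dist (γ s) (γ t) ≤ dist (γ s) (ι gs) + dist (ι gs) (γ t) := dist_triangle _ _ _
        _ ≤ dist (γ s) (ι gs) + (dist (ι gs) (ι gt) + dist (ι gt) (γ t)) := by
            gcongr; exact dist_triangle _ _ _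
        _ ≤ _ := by rw [isom, dist_comm (ι gt)]; linarith
    have h3 : (n0 : ℝ) + 1 + eps + 2 < |s - t| / lam := by
      rw [lt_div_iff₀ hlam0]; linarith
    linarith
  have hn01 : n0 ≤ n := by
    have : (n0 : ℝ) ≤ n := by linarith
    exact_mod_cast this
  have hn1 : 1 ≤ n := by
    have h0 : (0 : ℝ) ≤ n0 := Nat.cast_nonneg _
    have : (1 : ℝ) ≤ n := by linarith
    exact_mod_cast this
  -- points of the geodesic are near `γ`
  have near1 : ∀ k ≤ n, ∃ u ∈ I, dist (ι (σ k)) (γ u) ≤ r0 := by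
    have hqg : Fin.IsQG 1 3 (Set.Icc 0 (n : ℝ)) (ext (fun k => ι (σ k)) n (γ s) (γ t)) := by
      have := ext_qg (p := fun k => ι (σ k)) (N := n) (A := γ s) (B := γ t) (r := 1) (C := 1)
        (by norm_num) le_rfl (by simp only [hσ0]; rw [dist_comm]; exact hgs)
        (by simp only [hσn]; rw [dist_comm]; exact hgt)
        (fun a b hab hb => by
          rw [isom, hσ a b hab hb, Nat.cast_sub hab, div_one])
        (fun a b hab hb => by
          rw [isom, hσ a b hab hb, Nat.cast_sub hab])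
      norm_num at this
      exact this
    intro k hk
    have h1 := hMorse 1 3 le_rfl (by norm_num) 0 n (ext (fun k => ι (σ k)) n (γ s) (γ t))
      (Nat.cast_nonneg _) hqg ⟨s, hs, by simp [ext]⟩
      ⟨t, ht, by
        have : (n : ℝ) ≠ 0 := by positivity
        simp [ext, this]⟩
      k ⟨Nat.cast_nonneg _, by exact_mod_cast hk⟩
    by_cases hk0 : k = 0
    · refine ⟨s, hs, ?_⟩
      rw [hk0, hσ0, dist_comm]
      linarith
    by_cases hkn : k = n
    · refine ⟨t, ht, ?_⟩
      rw [hkn, hσn, dist_comm]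
      linarith
    have h2 : ext (fun k => ι (σ k)) n (γ s) (γ t) (k : ℝ) = ι (σ k) := by
      have h3 : (k : ℝ) ≠ 0 := by exact_mod_cast hk0
      have h4 : (k : ℝ) ≠ n := by exact_mod_cast hkn
      simp [ext, h3, h4]
    rw [h2] at h1
    have h3 := Metric.cthickening_subset_thickening' (show 0 < r0 by linarith)
      (show Mo 1 3 < r0 by linarith) _ h1
    rw [Metric.mem_thickening_iff] at h3
    obtain ⟨_, ⟨u, hu, rfl⟩, h4⟩ := h3
    exact ⟨u, hu, h4.le⟩
  -- the detour
  obtain ⟨i, m, j, N, q, him, hmj, hjn, hq, hq0, hqN, hqg, hfar⟩ := hn0 n hn01 σ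
    (fun i j hij hj => hσ i j hij hj)
  have hN1 : 1 ≤ N := by
    by_contra h0
    have hN0 : N = 0 := by omega
    have h1 : σ i = σ j := by rw [← hq0, ← hqN, hN0]
    have h2 := hσ i j (him.trans hmj) hjn
    have h3 : M.d (σ i) (σ j) = 0 := by
      have h4 := isom (σ i) (σ j)
      rw [h1, dist_self] at h4
      rw [h1]
      exact_mod_cast h4.symm
    have h4 := hfar 0 (Nat.zero_le _)
    rw [hq0] at h4
    have h5 : i = m := by omega
    rw [h5] at h4
    have h6 : M.d (σ m) (σ m) = 0 := by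
      have h7 := isom (σ m) (σ m)
      rw [dist_self] at h7
      exact_mod_cast h7.symm
    omega
  choose! u huI hu using near1
  -- upper bound on distances along the path
  have hqhi : ∀ a b : ℕ, a ≤ b → b ≤ N → dist (ι (q a)) (ι (q b)) ≤ (b : ℝ) - a := by
    intro a b hab
    induction b, hab using Nat.le_induction with
    | base => intro _; simp
    | succ b hab ih =>
      intro hb
      have h1 := ih (by omega)
      have h2 : dist (ι (q b)) (ι (q (b + 1))) ≤ 1 := by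
        rw [isom]; exact_mod_cast hq b (by omega)
      have h3 := dist_triangle (ι (q a)) (ι (q b)) (ι (q (b + 1)))
      push_cast
      linarith
  have hqlo : ∀ a b : ℕ, a ≤ b → b ≤ N → ((b : ℝ) - a) / C' ≤ dist (ι (q a)) (ι (q b)) := by
    intro a b hab hb
    rw [div_le_iff₀ hC'0, isom]
    have h1 := hqg a b hab hb
    have h2 : ((b : ℝ) - a) ≤ C * M.d (q a) (q b) := by
      rw [← Nat.cast_sub hab]; exact_mod_cast h1
    have h3 : (0 : ℝ) ≤ M.d (q a) (q b) := Nat.cast_nonneg _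
    nlinarith
  have near2 : ∀ a ≤ N, ∃ v ∈ I, dist (ι (q a)) (γ v) ≤ r1 ∧ (a = 0 → v = u i) ∧
      (a = N → v = u j) := by
    have hqgeo : Fin.IsQG C' e1 (Set.Icc 0 (N : ℝ)) (ext (fun k => ι (q k)) N (γ (u i))
        (γ (u j))) :=
      ext_qg (p := fun k => ι (q k)) (N := N) (A := γ (u i)) (B := γ (u j)) (r := r0) (C := C')
        (by linarith) hC1 (by simp only [hq0]; exact hu i (by omega))
        (by simp only [hqN]; exact hu j hjn) hqlo hqhi
    intro a ha
    have h1 := hMorse C' e1 hC1 (by linarith) 0 N (ext (fun k => ι (q k)) N (γ (u i)) (γ (u j)))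
      (Nat.cast_nonneg _) hqgeo ⟨u i, huI i (by omega), by simp [ext]⟩
      ⟨u j, huI j hjn, by
        have : (N : ℝ) ≠ 0 := by positivity
        simp [ext, this]⟩
      a ⟨Nat.cast_nonneg _, by exact_mod_cast ha⟩
    by_cases ha0 : a = 0
    · refine ⟨u i, huI i (by omega), ?_, fun _ => rfl, fun h => by omega⟩
      rw [ha0, hq0]
      have := hu i (by omega)
      linarith
    by_cases haN : a = N
    · refine ⟨u j, huI j hjn, ?_, fun h => absurd h ha0, fun _ => rfl⟩
      rw [haN, hqN]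
      have := hu j hjn
      linarith
    have h2 : ext (fun k => ι (q k)) N (γ (u i)) (γ (u j)) (a : ℝ) = ι (q a) := by
      have h3 : (a : ℝ) ≠ 0 := by exact_mod_cast ha0
      have h4 : (a : ℝ) ≠ N := by exact_mod_cast haN
      simp [ext, h3, h4]
    rw [h2] at h1
    have h3 := Metric.cthickening_subset_thickening' (show 0 < r1 by linarith)
      (show Mo C' e1 < r1 by linarith) _ h1
    rw [Metric.mem_thickening_iff] at h3
    obtain ⟨_, ⟨v, hv, rfl⟩, h4⟩ := h3
    exact ⟨v, hv, h4.le, fun h => absurd h ha0, fun h => absurd h haN⟩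
  choose! v hvI hv hv0 hvN using near2
  -- parameters of close points are close
  have par : ∀ (P Q : X) (x y : ℝ), x ∈ I → y ∈ I → dist P (γ x) ≤ r1 → dist Q (γ y) ≤ r1 →
      dist P Q ≤ 1 → |y - x| ≤ L := by
    intro P Q x y hx hy h1 h2 h3
    have h4 := (hγ x hx y hy).1
    have h5 : dist (γ x) (γ y) ≤ r1 + 1 + r1 := by
      calc dist (γ x) (γ y) ≤ dist (γ x) P + dist P (γ y) := dist_triangle _ _ _
        _ ≤ dist (γ x) P + (dist P Q + dist Q (γ y)) := by gcongr; exact dist_triangle _ _ _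
        _ ≤ _ := by rw [dist_comm (γ x)]; linarith
    have h6 : |x - y| / lam ≤ eps + 2 * r1 + 1 := by linarith
    rw [div_le_iff₀ hlam0] at h6
    rw [abs_sub_comm]
    linarith
  -- points with close parameters are close
  have close : ∀ (P Q : X) (x y : ℝ), x ∈ I → y ∈ I → dist P (γ x) ≤ r1 → dist Q (γ y) ≤ r1 →
      |x - y| ≤ L → dist P Q ≤ Rc := by
    intro P Q x y hx hy h1 h2 h3
    have h4 := (hγ x hx y hy).2
    calc dist P Q ≤ dist P (γ x) + dist (γ x) Q := dist_triangle _ _ _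
      _ ≤ dist P (γ x) + (dist (γ x) (γ y) + dist (γ y) Q) := by gcongr; exact dist_triangle _ _ _
      _ ≤ r1 + ((lam * L + eps) + r1) := by
          rw [dist_comm (γ y)]
          have : lam * |x - y| ≤ lam * L := mul_le_mul_of_nonneg_left h3 hlam0.le
          linarith
      _ = Rc := by rw [hRc]; ring
  have hu1 : ∀ k ≤ n, dist (ι (σ k)) (γ (u k)) ≤ r1 := fun k hk => (hu k hk).trans (by linarith)
  have stepu : ∀ k, k < n → |u (k + 1) - u k| ≤ L := by
    intro k hk
    refine par _ _ _ _ (huI k hk.le) (huI (k + 1) hk) (hu1 k hk.le) (hu1 (k + 1) hk) ?_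
    rw [isom, hσ k (k + 1) (by omega) hk]
    simp
  have stepv : ∀ a, a < N → |v (a + 1) - v a| ≤ L := by
    intro a ha
    refine par _ _ _ _ (hvI a ha.le) (hvI (a + 1) ha) (hv a ha.le) (hv (a + 1) ha) ?_
    rw [isom]
    exact_mod_cast hq a ha
  have hmn : m ≤ n := hmj.trans hjn
  have hin : i ≤ n := him.trans hmn
  -- far means far
  have hRcR : Rc ≤ (⌈Rc⌉₊ : ℝ) := Nat.le_ceil _
  have far' : ∀ a ≤ N, Rc < dist (ι (σ m)) (ι (q a)) := by
    intro a ha
    rw [isom]
    have h1 : ((⌈Rc⌉₊ : ℕ) : ℝ) < M.d (σ m) (q a) := by exact_mod_cast hfar a ha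
    linarith
  rcases between (u i) (u j) (u m) with h | h | h
  · -- `u m` is between `u i` and `u j`
    have hv0' : v 0 = u i := hv0 0 (Nat.zero_le _) rfl
    have hvN' : v N = u j := hvN N le_rfl rfl
    obtain ⟨a, -, ha, hab⟩ := ivt v (Nat.zero_le N) hL0 (fun k _ hk => stepv k hk)
      (c := u m) (by rw [hv0', hvN']; exact h)
    have h1 := close _ _ _ _ (hvI a ha) (huI m hmn) (hv a ha) (hu1 m hmn) hab
    have h2 := far' a ha
    rw [dist_comm] at h2
    linarith
  · -- `u i` is between `u m` and `u j`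
    obtain ⟨k, hk1, hk2, hk3⟩ := ivt u hmj hL0 (fun k _ hk => stepu k (by omega)) (c := u i) h
    have h1 := close _ _ _ _ (huI k (by omega)) (huI i hin) (hu1 k (by omega)) (hu1 i hin) hk3
    have h2 := far' 0 (Nat.zero_le _)
    rw [hq0] at h2
    rw [dist_comm, isom, hσ i k (by omega) (by omega)] at h1
    rw [dist_comm, isom, hσ i m him hmn] at h2
    have h3 : ((m - i : ℕ) : ℝ) ≤ ((k - i : ℕ) : ℝ) := by
      have : m - i ≤ k - i := by omega
      exact_mod_cast this
    linarith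
  · -- `u j` is between `u i` and `u m`
    obtain ⟨k, hk1, hk2, hk3⟩ := ivt u him hL0 (fun k _ hk => stepu k (by omega)) (c := u j) h
    have h1 := close _ _ _ _ (huI k (by omega)) (huI j hjn) (hu1 k (by omega)) (hu1 j hjn) hk3
    have h2 := far' N le_rfl
    rw [hqN] at h2
    rw [isom, hσ k j (by omega) hjn] at h1
    rw [isom, hσ m j hmj hjn] at h2
    have h3 : ((j - m : ℕ) : ℝ) ≤ ((j - k : ℕ) : ℝ) := by
      have : j - m ≤ j - k := by omega
      exact_mod_cast this
    linarith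

end Pool.Agent.Helper44.ML
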