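import Mathlib
import Pool.Agent.Helper93.ML.Level

/-!
# MODULE M5_Ov: different relator axes have small overlap
-/

namespace Pool.Agent.Helper44.ML

open Pool.Agent.Helper93.ML

variable {G : Type} [Group G] {M : Mark G} {cons : List (ℕ × ℕ)} {δ : ℕ}

/-! ### words -/

theorem ov_sep_sub {z y : List Ltr} (h : Sep cons z) (hy : y <:+: z) : Sep cons y :=
  fun c hc x hx hp hl => h c hc x (hx.trans hy) hp hl

theorem ov_pos_sub {z y : List Ltr} (h : Pos z) (hy : y <:+: z) : Pos y :=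
  fun x hx => h x (hy.subset hx)

theorem ov_clean_pos {z : List Ltr} (hc : ∀ c ∈ cons, 3 ≤ c.2 ∧ c.1 ≤ c.2) (hp : Pos z)
    (hs : Sep cons z) : Clean cons z := by
  refine ⟨?_, hs, ?_⟩
  · unfold Red
    apply List.Pairwise.isChain
    rw [List.pairwise_iff_forall_sublist]
    intro a b hab h
    have h1 := (hp a (hab.subset (by simp))).2
    have h2 := (hp b (hab.subset (by simp))).2
    rw [h] at h2
    simp [inv1, h1] at h2
  · intro c hcm y hy hpy hl
    exfalso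
    have h3 : 3 ≤ y.length := le_trans (hc c hcm).1 hl
    obtain ⟨x, hx⟩ : ∃ x, x ∈ y := List.exists_mem_of_length_pos (by omega)
    have h1 := (hpy x hx).2
    have h2 : x ∈ invw z := hy.subset hx
    simp only [invw, List.mem_reverse, List.mem_map] at h2
    obtain ⟨a, ha, rfl⟩ := h2
    have h4 := (hp a ha).2
    simp [inv1, h4] at h1

theorem ov_sub (z : List Ltr) (s k : ℕ) : (z.drop s).take k <:+: z :=
  (List.take_prefix _ _).isInfix.trans (List.drop_suffix _ _).isInfix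

theorem ov_take_sub {z : List Ltr} {s k t j : ℕ} (h : t + j ≤ k) :
    ((((z.drop s).take k).drop t).take j) = (z.drop (s + t)).take j := by
  rw [List.drop_take, List.take_take, List.drop_drop]
  congr 1
  omega

/-- the code piece of a relator -/
theorem rel_window (V : Lvl M cons δ) {w : List Ltr} (hw : w ∈ V.K) (s k : ℕ)
    (h : s + k ≤ V.n) :
    ((V.rel w).drop (V.l + 1 + s)).take k = ((V.code w).drop s).take k := by
  have hl : w.length = V.l := (V.hK w hw).1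
  have hn : (V.code w).length = V.n := V.isCode.len w hl
  unfold Lvl.rel
  rw [show w ++ V.x w :: (V.code w ++ [V.y w]) = (w ++ [V.x w]) ++ (V.code w ++ [V.y w]) by simp]
  rw [show V.l + 1 + s = (w ++ [V.x w]).length + s by simp [hl]]
  rw [List.drop_length_add_append, List.drop_append_of_le_length (by omega),
    List.take_append_of_le_length (by rw [List.length_drop]; omega)]

theorem rel_len (V : Lvl M cons δ) {w : List Ltr} (hw : w ∈ V.K) :
    (V.rel w).length = V.l + V.n + 2 := by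
  have hl : w.length = V.l := (V.hK w hw).1
  have hn : (V.code w).length = V.n := V.isCode.len w hl
  unfold Lvl.rel
  simp only [List.length_append, List.length_cons, List.length_nil, hl, hn]
  omega

theorem code_clean (V : Lvl M cons δ) {w : List Ltr} (hw : w ∈ V.K) (s k : ℕ) :
    Clean cons (((V.code w).drop s).take k) := by
  have hl : w.length = V.l := (V.hK w hw).1
  exact ov_clean_pos V.inv.cons_ok (ov_pos_sub (V.isCode.pos w hl) (ov_sub _ _ _))
    (ov_sep_sub (V.isCode.sep w hl) (ov_sub _ _ _))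

/-- reading along an axis -/
theorem ov_ax_read {ι : Type} (L : Lines M ι) (v : L.Y) (q : ℤ) (r k : ℕ) (h : r + k ≤ L.τ) :
    L.ax v (q * L.τ + ((r + k : ℕ) : ℤ)) =
      L.ax v (q * L.τ + (r : ℤ)) * M.ev (((L.R v.1).drop r).take k) := by
  unfold Lines.ax
  have e1 := M.line_eq (L.R v.1) (L.hR v.1) q (r + k) (by rw [L.lenR]; exact h)
  have e2 := M.line_eq (L.R v.1) (L.hR v.1) q r (by rw [L.lenR]; omega)
  rw [L.lenR] at e1 e2
  rw [e1, e2, M.ev_take_add]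
  group

/-- windows -/
theorem ov_window {l n : ℕ} {τ : ℕ} (hτ : τ = l + n + 2) (x0 : ℤ) (h : ℕ) (hn : h ≤ n)
    (hl : l + 3 ≤ h) :
    ∃ (q : ℤ) (s k : ℕ), x0 ≤ q * τ + ((l + 1 + s : ℕ) : ℤ) ∧
      q * τ + ((l + 1 + s : ℕ) : ℤ) + k ≤ x0 + h ∧ s + k ≤ n ∧ h ≤ 2 * k + l + 3 := by
  have hτ0 : (0 : ℤ) < τ := by omega
  have e1 := Int.mul_ediv_add_emod x0 (τ : ℤ)
  have e2 := Int.emod_nonneg x0 hτ0.ne'
  have e3 := Int.emod_lt_of_pos x0 hτ0
  obtain ⟨r, hr⟩ := Int.eq_ofNat_of_zero_le e2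
  rw [hr] at e1 e3
  obtain ⟨q, hq⟩ : ∃ q : ℤ, q = x0 / τ := ⟨_, rfl⟩
  rw [← hq, mul_comm] at e1
  by_cases hc : r ≤ l + 1
  · exact ⟨q, 0, h - (l + 1 - r), by push_cast; omega, by push_cast; omega, by omega, by omega⟩
  · by_cases hc2 : h ≤ 2 * (l + 1 + n - r) + l + 3
    · refine ⟨q, r - l - 1, min h (l + 1 + n - r), by omega, by omega, by omega, by omega⟩
    · refine ⟨q + 1, 0, h - (l + 1 + n - r) - l - 2, ?_, ?_, by omega, by omega⟩
      · rw [add_mul, one_mul]; omega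
      · rw [add_mul, one_mul]; omega

/-! ### geometry -/

/-- every point of the axis `u` between two points close to the axis `v` is close to `v` -/
theorem ov_fellow {ι : Type} (L : Lines M ι) (u v : L.Y) {a b : ℤ} (hab : a ≤ b) {ya yb : ℤ}
    {D0 : ℕ} (ha : M.d (L.ax v a) (L.ax u ya) ≤ D0) (hb : M.d (L.ax v b) (L.ax u yb) ≤ D0)
    {y : ℤ} (hy : (ya ≤ y ∧ y ≤ yb) ∨ (yb ≤ y ∧ y ≤ ya)) :
    ∃ x, a ≤ x ∧ x ≤ b ∧ M.d (L.ax v x) (L.ax u y) ≤ 4 * D0 + 8 * L.κ := by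
  have hκ := L.hκ
  obtain ⟨n, rfl⟩ := Int.le.dest hab
  have hp : IsPath M.d (fun m : ℕ => L.ax v (a + m)) n := fun m _ => by
    have := L.ax_step v (a + m)
    simp only
    push_cast
    rw [← add_assoc]
    exact this
  have hs : Str M.d (fun m : ℕ => L.ax v (a + m)) n L.κ := fun a b c hab hbc _ =>
    L.ax_str v (by omega) (by omega)
  have h3 : M.d (L.ax u ya) (L.ax u y) + M.d (L.ax u y) (L.ax u yb) ≤
      M.d (L.ax u ya) (L.ax u yb) + 2 * L.κ := by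
    rcases hy with hx | hx
    · exact L.ax_str u hx.1 hx.2
    · have := L.ax_str u hx.1 hx.2
      have s1 := M.isGeo.symm (L.ax u yb) (L.ax u y)
      have s2 := M.isGeo.symm (L.ax u y) (L.ax u ya)
      have s3 := M.isGeo.symm (L.ax u yb) (L.ax u ya)
      omega
  have t1 := M.isGeo.tri (L.ax v a) (L.ax u ya) (L.ax u y)
  have t2 := M.isGeo.tri (L.ax u y) (L.ax u yb) (L.ax v (a + n))
  have t3 := M.isGeo.tri (L.ax u ya) (L.ax v a) (L.ax u yb)
  have t4 := M.isGeo.tri (L.ax v a) (L.ax v (a + n)) (L.ax u yb)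
  have s1 := M.isGeo.symm (L.ax u yb) (L.ax v (a + n))
  have s2 := M.isGeo.symm (L.ax u ya) (L.ax v a)
  obtain ⟨j, hj, h5⟩ := near_str M.isGeo L.hyp hp hs (p := L.ax u y) (e := 2 * D0 + L.κ) (by
    simp only [Nat.cast_zero, add_zero]
    omega)
  refine ⟨a + j, by omega, by omega, ?_⟩
  rw [M.isGeo.symm]
  omega

/-- same direction -/
theorem ov_core {V : Lvl M cons δ} {L : Lines M V.K} (hR : ∀ w, L.R w = V.rel w) {D Λ : ℕ}
    (hΛ : ∀ (ζ z' : List Ltr) (P P' : G), Clean cons ζ → M.len (M.ev z') = z'.length →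
      M.d P P' ≤ D → M.d (P * M.ev ζ) (P' * M.ev z') ≤ D → 2 * Λ ≤ ζ.length →
      ∃ j₀, j₀ + (ζ.length - 2 * Λ) ≤ z'.length ∧
        (ζ.drop Λ).take (ζ.length - 2 * Λ) = (z'.drop j₀).take (ζ.length - 2 * Λ) ∧
        P * M.ev (ζ.take Λ) = P' * M.ev (z'.take j₀))
    {u v : L.Y} {q q' : ℤ} {s t s' t' : ℕ} (hst : s ≤ t) (ht : t ≤ V.n) (hst' : s' ≤ t')
    (ht' : t' ≤ V.n)
    (h1 : M.d (L.ax v (q * L.τ + ((V.l + 1 + s : ℕ) : ℤ)))
      (L.ax u (q' * L.τ + ((V.l + 1 + s' : ℕ) : ℤ))) ≤ D)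
    (h2 : M.d (L.ax v (q * L.τ + ((V.l + 1 + t : ℕ) : ℤ)))
      (L.ax u (q' * L.τ + ((V.l + 1 + t' : ℕ) : ℤ))) ≤ D)
    (hm : V.m + 2 * Λ ≤ t - s) : u = v := by
  have hτ : L.τ = V.l + V.n + 2 := by
    rw [← L.lenR v.1, hR, rel_len V v.1.2]
  have key : ∀ (w : L.Y) (p : ℤ) (c k : ℕ), c + k ≤ V.n →
      L.ax w (p * L.τ + ((V.l + 1 + (c + k) : ℕ) : ℤ)) =
        L.ax w (p * L.τ + ((V.l + 1 + c : ℕ) : ℤ)) *
          M.ev (((V.code w.1).drop c).take k) := by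
    intro w p c k hck
    rw [← add_assoc, ov_ax_read L w p (V.l + 1 + c) k (by omega), hR, rel_window V w.1.2 c k hck]
  have hlv : (v.1 : List Ltr).length = V.l := (V.hK v.1 v.1.2).1
  have hlu : (u.1 : List Ltr).length = V.l := (V.hK u.1 u.1.2).1
  have hnv : (V.code v.1).length = V.n := V.isCode.len _ hlv
  have hnu : (V.code u.1).length = V.n := V.isCode.len _ hlu
  obtain ⟨k, rfl⟩ := Nat.exists_eq_add_of_le hst
  obtain ⟨k', rfl⟩ := Nat.exists_eq_add_of_le hst'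
  rw [key v q s k ht, key u q' s' k' ht'] at h2
  have l1 : (((V.code v.1).drop s).take k).length = k := by
    rw [List.length_take, List.length_drop, hnv]; omega
  have l2 : (((V.code u.1).drop s').take k').length = k' := by
    rw [List.length_take, List.length_drop, hnu]; omega
  obtain ⟨j₀, g1, g2, g3⟩ := hΛ _ _ _ _ (code_clean V v.1.2 s k)
    (V.inv.geod _ (code_clean V u.1.2 s' k')) h1 h2 (by rw [l1]; omega)
  rw [l1, l2] at g1
  rw [l1, ov_take_sub (by omega), ov_take_sub (by omega)] at g2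
  have g4 : ((V.code v.1).drop (s + Λ)).take V.m = ((V.code u.1).drop (s' + j₀)).take V.m := by
    have := congrArg (List.take V.m) g2
    rw [List.take_take, List.take_take, Nat.min_eq_left (by omega)] at this
    exact this
  obtain ⟨g5, g6⟩ := V.isCode.uniq _ _ hlv hlu _ _ (by omega) (by omega) g4
  have e1 : (((V.code v.1).drop s).take k).take Λ = ((V.code v.1).drop s).take Λ := by
    rw [List.take_take, Nat.min_eq_left (by omega)]
  have e2 : (((V.code u.1).drop s').take k').take j₀ = ((V.code u.1).drop s').take j₀ := by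
    rw [List.take_take, Nat.min_eq_left (by omega)]
  rw [e1, e2, ← key v q s Λ (by omega), ← key u q' s' j₀ (by omega), ← g6] at g3
  obtain ⟨r, hr⟩ : ∃ r : ℕ, r = V.l + 1 + (s + Λ) := ⟨_, rfl⟩
  rw [← hr] at g3
  have hrτ : r ≤ L.τ := by omega
  clear h1 h2 key g1 g2 g4 e1 e2 l1 l2
  obtain ⟨w, y⟩ := v
  obtain ⟨w', y'⟩ := u
  have hww : w = w' := Subtype.ext g5
  subst hww
  unfold Lines.ax at g3
  have f1 := M.line_eq (L.R w) (L.hR w) q r (by rw [L.lenR]; exact hrτ)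
  have f2 := M.line_eq (L.R w) (L.hR w) q' r (by rw [L.lenR]; exact hrτ)
  rw [L.lenR] at f1 f2
  simp only at g3
  rw [f1, f2, ← mul_assoc, ← mul_assoc] at g3
  have g7 := mul_right_cancel g3
  have g8 : y' = y := by
    rw [← QuotientGroup.out_eq' y, ← QuotientGroup.out_eq' y', QuotientGroup.eq]
    refine Subgroup.mem_zpowers_iff.2 ⟨q' - q, ?_⟩
    have : y'.out⁻¹ * (y.out * M.ev (L.R w) ^ q) = M.ev (L.R w) ^ q' := by
      rw [g7]; group
    unfold Lines.r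
    rw [zpow_sub, ← this, ← mul_assoc, mul_inv_cancel_right]
    rfl
  rw [g8]

/-- opposite direction -/
theorem ov_core' {V : Lvl M cons δ} {L : Lines M V.K} (hR : ∀ w, L.R w = V.rel w) {D Λ : ℕ}
    (hΛ : ∀ (ζ z' : List Ltr) (P P' : G), Clean cons ζ → M.len (M.ev z') = z'.length →
      M.d P P' ≤ D → M.d (P * M.ev ζ) (P' * M.ev z') ≤ D → 2 * Λ ≤ ζ.length →
      ∃ j₀, j₀ + (ζ.length - 2 * Λ) ≤ z'.length ∧
        (ζ.drop Λ).take (ζ.length - 2 * Λ) = (z'.drop j₀).take (ζ.length - 2 * Λ) ∧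
        P * M.ev (ζ.take Λ) = P' * M.ev (z'.take j₀))
    {u v : L.Y} {q q' : ℤ} {s t s' t' : ℕ} (hst : s ≤ t) (ht : t ≤ V.n) (hst' : s' ≤ t')
    (ht' : t' ≤ V.n)
    (h1 : M.d (L.ax v (q * L.τ + ((V.l + 1 + s : ℕ) : ℤ)))
      (L.ax u (q' * L.τ + ((V.l + 1 + t' : ℕ) : ℤ))) ≤ D)
    (h2 : M.d (L.ax v (q * L.τ + ((V.l + 1 + t : ℕ) : ℤ)))
      (L.ax u (q' * L.τ + ((V.l + 1 + s' : ℕ) : ℤ))) ≤ D)
    (hm : 1 + 2 * Λ ≤ t - s) : False := by
  have hτ : L.τ = V.l + V.n + 2 := by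
    rw [← L.lenR v.1, hR, rel_len V v.1.2]
  have key : ∀ (w : L.Y) (p : ℤ) (c k : ℕ), c + k ≤ V.n →
      L.ax w (p * L.τ + ((V.l + 1 + (c + k) : ℕ) : ℤ)) =
        L.ax w (p * L.τ + ((V.l + 1 + c : ℕ) : ℤ)) *
          M.ev (((V.code w.1).drop c).take k) := by
    intro w p c k hck
    rw [← add_assoc, ov_ax_read L w p (V.l + 1 + c) k (by omega), hR, rel_window V w.1.2 c k hck]
  have hlv : (v.1 : List Ltr).length = V.l := (V.hK v.1 v.1.2).1
  have hlu : (u.1 : List Ltr).length = V.l := (V.hK u.1 u.1.2).1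
  have hnv : (V.code v.1).length = V.n := V.isCode.len _ hlv
  have hnu : (V.code u.1).length = V.n := V.isCode.len _ hlu
  obtain ⟨k, rfl⟩ := Nat.exists_eq_add_of_le hst
  obtain ⟨k', rfl⟩ := Nat.exists_eq_add_of_le hst'
  have h3 : L.ax u (q' * L.τ + ((V.l + 1 + s' : ℕ) : ℤ)) =
      L.ax u (q' * L.τ + ((V.l + 1 + (s' + k') : ℕ) : ℤ)) *
        M.ev (invw (((V.code u.1).drop s').take k')) := by
    rw [key u q' s' k' ht', M.ev_invw]
    group
  rw [key v q s k ht, h3] at h2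
  have l1 : (((V.code v.1).drop s).take k).length = k := by
    rw [List.length_take, List.length_drop, hnv]; omega
  obtain ⟨j₀, g1, g2, g3⟩ := hΛ _ _ _ _ (code_clean V v.1.2 s k)
    (by rw [M.ev_invw, M.len_inv, invw_length]; exact V.inv.geod _ (code_clean V u.1.2 s' k'))
    h1 h2 (by rw [l1]; omega)
  rw [l1] at g2
  have l3 : (((((V.code v.1).drop s).take k).drop Λ).take (k - 2 * Λ)).length = k - 2 * Λ := by
    rw [List.length_take, List.length_drop, l1]; omega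
  obtain ⟨a, ha⟩ : ∃ a, a ∈ ((((V.code v.1).drop s).take k).drop Λ).take (k - 2 * Λ) :=
    List.exists_mem_of_length_pos (by omega)
  have p1 : a.2 = true :=
    (V.isCode.pos _ hlv a ((ov_sub _ _ _).subset ((ov_sub _ _ _).subset ha))).2
  rw [g2] at ha
  have ha2 := (ov_sub _ _ _).subset ha
  simp only [invw, List.mem_reverse, List.mem_map] at ha2
  obtain ⟨b, hb, rfl⟩ := ha2
  have p2 : b.2 = true := (V.isCode.pos _ hlu b ((ov_sub _ _ _).subset hb)).2
  simp [inv1, p2] at p1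

theorem m5_ov (hM : StmtM5Match) : StmtM5Ov := by
  intro G _ M cons δ hinv κ
  obtain ⟨Λ, hΛ⟩ := hM G M cons δ hinv (4 * (24 * κ) + 8 * κ)
  refine ⟨1000 * (Λ + κ + 1), ?_⟩
  intro V L hR hκ' hl hl2 hm2 u v huv i j
  have hκ := L.hκ
  have hθ := L.hθ
  have hτ' := L.hτ
  have hτ : L.τ = V.l + V.n + 2 := by
    rw [← L.lenR v.1, hR, rel_len V v.1.2]
  by_contra hc
  push Not at hc
  wlog hij : i ≤ j generalizing i j
  · exact this j i (by rw [L.dv_symm]; exact hc) (by omega)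
  obtain ⟨n', rfl⟩ := Int.le.dest hij
  have hp : IsPath M.d (fun m : ℕ => L.ax u (i + m)) n' := fun m _ => by
    have := L.ax_step u (i + m)
    simp only
    push_cast
    rw [← add_assoc]
    exact this
  have hs : Str M.d (fun m : ℕ => L.ax u (i + m)) n' L.κ := fun a b c hab hbc _ =>
    L.ax_str u (by omega) (by omega)
  have hnear : ∀ x, ((L.pr v (L.ax u i) ≤ x ∧ x ≤ L.pr v (L.ax u (i + n'))) ∨
      (L.pr v (L.ax u (i + n')) ≤ x ∧ x ≤ L.pr v (L.ax u i))) →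
      ∃ y : ℤ, M.d (L.ax v x) (L.ax u y) ≤ 24 * κ := by
    intro x hx
    obtain ⟨k, hk, h5⟩ := L.near v hp hs (P := L.ax u i) (Q := L.ax u (i + n')) (by simp) rfl
      (by omega) hx
    exact ⟨i + k, by omega⟩
  obtain ⟨x0, hx0⟩ : ∃ x0 : ℤ, ∀ x, x0 ≤ x → x ≤ x0 + L.θ →
      ((L.pr v (L.ax u i) ≤ x ∧ x ≤ L.pr v (L.ax u (i + n'))) ∨
      (L.pr v (L.ax u (i + n')) ≤ x ∧ x ≤ L.pr v (L.ax u i))) := by
    unfold Lines.dv at hc
    rcases le_total (L.pr v (L.ax u i)) (L.pr v (L.ax u (i + n'))) with h | h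
    · exact ⟨L.pr v (L.ax u i), fun x h1 h2 => Or.inl ⟨by omega, by omega⟩⟩
    · exact ⟨L.pr v (L.ax u (i + n')), fun x h1 h2 => Or.inr ⟨by omega, by omega⟩⟩
  obtain ⟨q, s, k, w1, w2, w3, w4⟩ := ov_window (l := V.l) (n := V.n) hτ x0 L.θ (by omega)
    (by omega)
  obtain ⟨a, ha⟩ : ∃ a : ℤ, a = q * L.τ + ((V.l + 1 + s : ℕ) : ℤ) := ⟨_, rfl⟩
  rw [← ha] at w1 w2
  obtain ⟨ya, hya⟩ := hnear a (hx0 a (by omega) (by omega))
  obtain ⟨yb, hyb⟩ := hnear (a + k) (hx0 _ (by omega) (by omega))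
  -- lengths
  have d1 := L.ax_gr v (show a ≤ a + k by omega) (by omega)
  have d2 := L.ax_le v (show a ≤ a + k by omega)
  have t3 := M.isGeo.tri (L.ax u ya) (L.ax v a) (L.ax u yb)
  have t4 := M.isGeo.tri (L.ax v a) (L.ax v (a + k)) (L.ax u yb)
  have t5 := M.isGeo.tri (L.ax v a) (L.ax u ya) (L.ax v (a + k))
  have t6 := M.isGeo.tri (L.ax u ya) (L.ax u yb) (L.ax v (a + k))
  have s1 := M.isGeo.symm (L.ax u yb) (L.ax v (a + k))
  have s2 := M.isGeo.symm (L.ax u ya) (L.ax v a)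
  have d3 := L.ax_abs_le u ya yb
  have d4 := L.ax_abs u ya yb
  have d5 := L.ax_abs4 u ya yb (by omega)
  obtain ⟨h', hh'⟩ : ∃ h' : ℕ, h' = (ya - yb).natAbs := ⟨_, rfl⟩
  rw [← hh'] at d3 d4 d5
  obtain ⟨q', s', k', w1', w2', w3', w4'⟩ := ov_window (l := V.l) (n := V.n) hτ (min ya yb) h'
    (by omega) (by omega)
  obtain ⟨y1, hy1⟩ : ∃ y1 : ℤ, y1 = q' * L.τ + ((V.l + 1 + s' : ℕ) : ℤ) := ⟨_, rfl⟩
  rw [← hy1] at w1' w2'
  have hb1 : (ya ≤ y1 ∧ y1 ≤ yb) ∨ (yb ≤ y1 ∧ y1 ≤ ya) := by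
    rcases le_total ya yb with h | h
    · left; omega
    · right; omega
  have hb2 : (ya ≤ y1 + k' ∧ y1 + k' ≤ yb) ∨ (yb ≤ y1 + k' ∧ y1 + k' ≤ ya) := by
    rcases le_total ya yb with h | h
    · left; omega
    · right; omega
  obtain ⟨x1, x1a, x1b, hx1⟩ := ov_fellow L u v (show a ≤ a + k by omega) hya hyb hb1
  obtain ⟨x2, x2a, x2b, hx2⟩ := ov_fellow L u v (show a ≤ a + k by omega) hya hyb hb2
  rw [hκ'] at hx1 hx2
  obtain ⟨t1, rfl⟩ := Int.le.dest x1a
  obtain ⟨t2, rfl⟩ := Int.le.dest x2a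
  have d6 := L.ax_gr u (show y1 ≤ y1 + k' by omega) (by omega)
  have d7 := L.ax_abs_le v (a + t1) (a + t2)
  have r1 := M.isGeo.tri (L.ax u y1) (L.ax v (a + t1)) (L.ax u (y1 + k'))
  have r2 := M.isGeo.tri (L.ax v (a + t1)) (L.ax v (a + t2)) (L.ax u (y1 + k'))
  have s3 := M.isGeo.symm (L.ax u y1) (L.ax v (a + t1))
  have c1 : (a + t1 : ℤ) = q * L.τ + ((V.l + 1 + (s + t1) : ℕ) : ℤ) := by rw [ha]; push_cast; ring
  have c2 : (a + t2 : ℤ) = q * L.τ + ((V.l + 1 + (s + t2) : ℕ) : ℤ) := by rw [ha]; push_cast; ring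
  have c3 : (y1 + k' : ℤ) = q' * L.τ + ((V.l + 1 + (s' + k') : ℕ) : ℤ) := by
    rw [hy1]; push_cast; ring
  have hbig : V.m + 2 * Λ + 1 ≤ ((a + t1 : ℤ) - (a + t2)).natAbs := by omega
  rcases le_total t1 t2 with h | h
  · refine huv (ov_core hR hΛ (u := u) (v := v) (q := q) (q' := q') (s := s + t1) (t := s + t2)
      (s' := s') (t' := s' + k') (by omega) (by omega) (by omega) (by omega) ?_ ?_ (by omega))
    · rw [← c1, ← hy1]; exact hx1
    · rw [← c2, ← c3]; exact hx2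
  · refine ov_core' hR hΛ (u := u) (v := v) (q := q) (q' := q') (s := s + t2) (t := s + t1)
      (s' := s') (t' := s' + k') (by omega) (by omega) (by omega) (by omega) ?_ ?_ (by omega)
    · rw [← c2, ← c3]; exact hx2
    · rw [← c1, ← hy1]; exact hx1

end Pool.Agent.Helper44.ML
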