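import Mathlib
import Pool.Agent.Helper93.ML.Stmts2

/-!
# MODULE M6_Rig: rigidity of clean words passes to small cancellation quotients
-/

namespace Pool.Agent.Helper44.ML

open Pool.Agent.Helper93.ML

variable {G : Type} [Group G] {M : Mark G} {ι : Type}

theorem str_pth (P : G) {w : List Ltr} (hw : M.Gd w) : Str M.d (M.pth P w) w.length 0 := by
  intro a b c hab hbc hc
  rw [M.pth_geod hw hab (by omega), M.pth_geod hw hbc hc, M.pth_geod hw (by omega) hc]
  omega

theorem MH_ev (L : SC M ι) (w : List Ltr) : L.MH.ev w = (M.ev w : L.H) := M.quo_ev L.N w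

theorem gd_lift (L : SC M ι) {z' : List Ltr} (h : L.MH.len (L.MH.ev z') = z'.length) :
    M.Gd z' := by
  have h1 : L.MH.len (L.MH.ev z') ≤ M.len (M.ev z') := by
    rw [MH_ev]
    exact M.quo_len_le L.N _
  have h2 := M.len_le z'
  unfold Mark.Gd
  omega

/-- a rotation by one period bringing two indices together -/
theorem rot_near {p q t e : ℤ} (h1 : t - e ≤ |p - q|) (h2 : |p - q| ≤ t + e) :
    ∃ k : ℤ, |p - (q + k * t)| ≤ e := by
  rcases le_total q p with h | h
  · refine ⟨1, ?_⟩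
    rw [abs_of_nonneg (by linarith)] at h1 h2
    rw [abs_le]
    constructor <;> linarith
  · refine ⟨-1, ?_⟩
    rw [abs_of_nonpos (by linarith)] at h1 h2
    rw [abs_le]
    constructor <;> linarith

theorem rig_ind (L : SC M ι) (cons cons' : List (ℕ × ℕ))
    (hcc : ∀ z, Clean cons' z → Clean cons z)
    (hgeo : ∀ z, Clean cons z → M.len (M.ev z) = z.length)
    (hdv : ∀ z, Clean cons' z → ∀ (v : L.Y) (P : G), L.dv v P (P * M.ev z) ≤ L.θ)
    (D Λ : ℕ)
    (hΛ : ∀ (z z' : List Ltr) (P P' : G), Clean cons z → M.len (M.ev z') = z'.length →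
      M.d P P' ≤ D → M.d (P * M.ev z) (P' * M.ev z') ≤ D →
      ∀ i, Λ ≤ i → i + Λ ≤ z.length →
        ∃ j ≤ z'.length, P * M.ev (z.take i) = P' * M.ev (z'.take j)) :
    ∀ (n : ℕ) (z z' : List Ltr) (P P' : L.H),
      L.MH.d P P' + L.MH.d (P * L.MH.ev z) (P' * L.MH.ev z') ≤ n →
      Clean cons' z → L.MH.len (L.MH.ev z') = z'.length → L.MH.d P P' ≤ D →
      L.MH.d (P * L.MH.ev z) (P' * L.MH.ev z') ≤ D → 2 * D + L.θ < z.length →
      ∀ i, Λ ≤ i → i + Λ ≤ z.length →
        ∃ j ≤ z'.length, P * L.MH.ev (z.take i) = P' * L.MH.ev (z'.take j) := by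
  intro n
  induction n using Nat.strong_induction_on with
  | _ n IH =>
  intro z z' Pb Pb' hn hz hz' hD1 hD2 hlen i hi1 hi2
  have hκ := L.hκ
  have hθ := L.hθ
  have hτ := L.hτ
  have hgd : M.Gd z' := gd_lift L hz'
  -- lifts
  obtain ⟨P, rfl⟩ := QuotientGroup.mk_surjective Pb
  obtain ⟨p', rfl⟩ := QuotientGroup.mk_surjective Pb'
  obtain ⟨m0, hm0, h0⟩ := M.quo_d_lift L.N P p'
  obtain ⟨P', hP'⟩ : ∃ P' : G, P' = m0 * p' := ⟨_, rfl⟩
  have hPp : ((p' : G) : L.H) = (P' : L.H) := by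
    rw [Mark.quo_eq]; exact ⟨m0, hm0, hP'⟩
  have hdPP : M.d P P' = L.MH.d (P : L.H) (P' : L.H) := by
    rw [← hPp, hP', h0]; rfl
  rw [hPp] at hn hD1 hD2 ⊢
  clear h0
  simp only [MH_ev] at hn hD2 hz' ⊢
  obtain ⟨Q, hQ⟩ : ∃ Q : G, Q = P * M.ev z := ⟨_, rfl⟩
  obtain ⟨Q', hQ'⟩ : ∃ Q' : G, Q' = P' * M.ev z' := ⟨_, rfl⟩
  have eQ : ((P : G) : L.H) * ((M.ev z : G) : L.H) = ((Q : G) : L.H) := by
    rw [hQ]; rfl
  have eQ' : ((P' : G) : L.H) * ((M.ev z' : G) : L.H) = ((Q' : G) : L.H) := by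
    rw [hQ']; rfl
  rw [eQ, eQ'] at hn hD2
  obtain ⟨m, hm, h0⟩ := M.quo_d_lift L.N Q Q'
  change _ = L.MH.d (Q : L.H) (Q' : L.H) at h0
  by_cases hm1 : m = 1
  · -- everything happens in `G`
    subst hm1
    rw [one_mul] at h0
    obtain ⟨j, hj, hj2⟩ := hΛ z z' P P' (hcc z hz) hgd (by omega)
      (by rw [← hQ, ← hQ', h0]; exact hD2) i hi1 hi2
    refine ⟨j, hj, ?_⟩
    have := congrArg (fun g : G => (g : L.H)) hj2
    exact this
  -- the Greendlinger axis
  obtain ⟨v, hv⟩ := L.greend hm hm1 Q'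
  -- minimality
  have minPP : M.d P P' = L.MH.d (P : L.H) (P' : L.H) := hdPP
  have minPQ' : M.d P' Q' = L.MH.d (P' : L.H) (Q' : L.H) := by
    apply le_antisymm
    · rw [hQ', M.d_mul_right_self, hgd, ← hz']
      unfold Mark.d
      apply le_of_eq
      congr 1
      rw [← QuotientGroup.mk_inv, ← QuotientGroup.mk_mul]
      congr 1
      group
    · exact M.quo_d_le L.N _ _
  have minQQ : M.d Q (m * Q') = L.MH.d (Q : L.H) ((m * Q' : G) : L.H) := by
    rw [h0]
    congr 1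
    rw [Mark.quo_eq]
    exact ⟨m, hm, rfl⟩
  have m1 := L.min_dv minPP v
  have m2 := L.min_dv minPQ' v
  have m3 := L.min_dv minQQ v
  have hPQ : L.dv v P Q ≤ L.θ := by rw [hQ]; exact hdv z hz v P
  have hzlen : M.d P Q = z.length := by
    rw [hQ, M.d_mul_right_self]; exact hgeo z (hcc z hz)
  have tPQ := L.dv_tri v
  have hPf : M.d P Q ≤ M.d P (L.foot v P) + L.dv v P Q + M.d Q (L.foot v Q) := by
    have t1 := M.isGeo.tri P (L.foot v P) Q
    have t2 := M.isGeo.tri (L.foot v P) (L.foot v Q) Q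
    have t3 : M.d (L.foot v P) (L.foot v Q) ≤ L.dv v P Q := L.ax_abs_le v _ _
    have s1 := M.isGeo.symm (L.foot v Q) Q
    omega
  by_cases hboth : L.θ < L.dv v P P' ∧ L.θ < L.dv v Q (m * Q')
  · exfalso
    have f1 := L.foot_abs v P P'
    have f2 := L.foot_abs v Q (m * Q')
    have q1 := L.proj2 v P P' (by omega)
    have q2 := L.proj2 v Q (m * Q') (by omega)
    omega
  -- the geodesic from `P'` to `Q'`
  have hpath := M.isPath_pth P' z' z'.length
  have hstr := str_pth P' hgd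
  have hp0 := M.pth_zero P' z'
  have hpn : M.pth P' z' z'.length = Q' := by rw [M.pth_length, hQ']
  by_cases hc : L.dv v Q (m * Q') ≤ L.θ
  · -- Case I
    have a1 : L.dv v Q' (m * Q') ≤ L.dv v Q' P + L.dv v P (m * Q') := L.dv_tri v _ _ _
    have a2 : L.dv v P (m * Q') ≤ L.dv v P Q + L.dv v Q (m * Q') := L.dv_tri v _ _ _
    have a3 : L.dv v P Q' ≤ L.dv v P P' + L.dv v P' Q' := L.dv_tri v _ _ _
    have a4 := L.dv_symm v Q' P
    obtain ⟨j, hj, hj2⟩ := L.near v hpath hstr hp0 hpn (by omega) (x := L.pr v Q') (by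
      rcases le_total (L.pr v P') (L.pr v Q') with h | h
      · left; exact ⟨h, le_rfl⟩
      · right; exact ⟨le_rfl, h⟩)
    obtain ⟨P'', hP''⟩ : ∃ P'' : G, P'' = M.pth P' z' j := ⟨_, rfl⟩
    rw [← hP''] at hj2
    obtain ⟨k, hk⟩ := rot_near (p := L.pr v P) (q := L.pr v Q') (t := L.τ) (e := 26 * L.θ)
      (by
        have : (L.dv v P Q' : ℤ) = |L.pr v P - L.pr v Q'| := by
          unfold Lines.dv; exact Int.natCast_natAbs _
        rw [← this]; omega)
      (by
        have : (L.dv v P Q' : ℤ) = |L.pr v P - L.pr v Q'| := by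
          unfold Lines.dv; exact Int.natCast_natAbs _
        rw [← this]; omega)
    have b1 : M.d (L.foot v P) (L.rt v ^ k * L.foot v Q') ≤ 26 * L.θ := by
      rw [← L.foot_rt]
      unfold Lines.foot
      rw [L.pr_rt]
      refine le_trans (L.ax_abs_le v _ _) ?_
      have : ((L.pr v P - (L.pr v Q' + k * L.τ)).natAbs : ℤ) =
        |L.pr v P - (L.pr v Q' + k * L.τ)| := Int.natCast_natAbs _
      omega
    have b2 : M.d (L.rt v ^ k * L.foot v Q') (L.rt v ^ k * P'') ≤ 22 * L.κ := by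
      rw [M.d_mul_left]
      unfold Lines.foot
      omega
    have b3 := M.isGeo.tri P (L.foot v P) (L.rt v ^ k * P'')
    have b4 := M.isGeo.tri (L.foot v P) (L.rt v ^ k * L.foot v Q') (L.rt v ^ k * P'')
    have b5 := M.quo_d_le' L.N P P'' (L.rt_mem v k)
    change L.MH.d (P : L.H) (P'' : L.H) ≤ _ at b5
    have c1 := L.foot_abs4 v P P' (by omega)
    have c2 := L.proj2 v P P' (by omega)
    have hlt : L.MH.d (P : L.H) (P'' : L.H) < L.MH.d (P : L.H) (P' : L.H) := by omega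
    -- the end point is unchanged
    have hend : ((P'' : G) : L.H) * L.MH.ev (z'.drop j) = ((Q' : G) : L.H) := by
      rw [MH_ev, ← QuotientGroup.mk_mul, hP'', hQ']
      unfold Mark.pth
      rw [mul_assoc, ← M.ev_append, List.take_append_drop]
    have hbeg : ((P : G) : L.H) * L.MH.ev z = ((Q : G) : L.H) := by
      rw [MH_ev, eQ]
    have hgd' : L.MH.len (L.MH.ev (z'.drop j)) = (z'.drop j).length := by
      have : L.MH.Gd z' := by
        unfold Mark.Gd; rw [MH_ev]; exact hz'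
      exact this.sub (List.drop_suffix _ _).isInfix
    obtain ⟨j', hj', hj3⟩ := IH _ (by
        have : L.MH.d (P : L.H) (P'' : L.H) + L.MH.d (Q : L.H) (Q' : L.H) < n := by omega
        exact this) z (z'.drop j) (P : L.H) (P'' : L.H)
        (by rw [hbeg, hend]) hz hgd' (by omega) (by rw [hbeg, hend]; exact hD2) hlen i hi1 hi2
    refine ⟨j + j', ?_, ?_⟩
    · rw [List.length_drop] at hj'
      omega
    · rw [MH_ev, MH_ev] at hj3
      rw [hj3, hP'']
      unfold Mark.pth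
      rw [← QuotientGroup.mk_mul, ← QuotientGroup.mk_mul, mul_assoc, ← M.ev_append,
        List.take_add]
  · -- Case II
    have hc2 : L.dv v P P' ≤ L.θ := by
      by_contra h
      exact hboth ⟨by omega, by omega⟩
    have a1 : L.dv v Q' (m * Q') ≤ L.dv v Q' P' + L.dv v P' (m * Q') := L.dv_tri v _ _ _
    have a2 : L.dv v P' (m * Q') ≤ L.dv v P' Q + L.dv v Q (m * Q') := L.dv_tri v _ _ _
    have a3 : L.dv v P' Q ≤ L.dv v P' P + L.dv v P Q := L.dv_tri v _ _ _
    have a4 := L.dv_symm v P' P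
    have a5 := L.dv_symm v Q' P'
    have a6 := L.dv_symm v Q P'
    obtain ⟨j, hj, hj2⟩ := L.near v hpath hstr hp0 hpn (by omega) (x := L.pr v P') (by
      rcases le_total (L.pr v P') (L.pr v Q') with h | h
      · left; exact ⟨le_rfl, h⟩
      · right; exact ⟨h, le_rfl⟩)
    obtain ⟨P'', hP''⟩ : ∃ P'' : G, P'' = M.pth P' z' j := ⟨_, rfl⟩
    rw [← hP''] at hj2
    have b1 : M.d (L.foot v Q) (L.foot v P') ≤ 2 * L.θ := by
      have : M.d (L.foot v Q) (L.foot v P') ≤ L.dv v Q P' := L.ax_abs_le v _ _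
      omega
    have b2 : M.d (L.foot v P') P'' ≤ 22 * L.κ := by
      unfold Lines.foot
      omega
    have b3 := M.isGeo.tri Q (L.foot v Q) P''
    have b4 := M.isGeo.tri (L.foot v Q) (L.foot v P') P''
    have b5 := M.quo_d_le L.N Q P''
    change L.MH.d (Q : L.H) (P'' : L.H) ≤ _ at b5
    have c1 := L.foot_abs4 v Q (m * Q') (by omega)
    have c2 := L.proj2 v Q (m * Q') (by omega)
    have hlt : L.MH.d (Q : L.H) (P'' : L.H) < L.MH.d (Q : L.H) (Q' : L.H) := by omega
    have hend : ((P' : G) : L.H) * L.MH.ev (z'.take j) = ((P'' : G) : L.H) := by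
      rw [MH_ev, ← QuotientGroup.mk_mul, hP'']
      rfl
    have hbeg : ((P : G) : L.H) * L.MH.ev z = ((Q : G) : L.H) := by
      rw [MH_ev, eQ]
    have hgd' : L.MH.len (L.MH.ev (z'.take j)) = (z'.take j).length := by
      have : L.MH.Gd z' := by
        unfold Mark.Gd; rw [MH_ev]; exact hz'
      exact this.sub (List.take_prefix _ _).isInfix
    obtain ⟨j', hj', hj3⟩ := IH _ (by
        have : L.MH.d (P : L.H) (P' : L.H) + L.MH.d (Q : L.H) (P'' : L.H) < n := by omega
        exact this) z (z'.take j) (P : L.H) (P' : L.H)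
        (by rw [hbeg, hend]) hz hgd' (by omega) (by rw [hbeg, hend]; omega) hlen i hi1 hi2
    refine ⟨min j' j, ?_, ?_⟩
    · omega
    · rw [MH_ev, MH_ev, List.take_take] at hj3
      exact hj3

theorem m6_rig : StmtM6Rig := by
  intro G _ M ι L cons cons' hcc hgeo hrig hdv D
  obtain ⟨Λ, hΛ⟩ := hrig D
  refine ⟨max Λ (2 * D + L.θ + 1), ?_⟩
  intro z z' P P' hz hz' h1 h2 i hi1 hi2
  have hlen : 2 * D + L.θ < z.length := by
    have := le_max_right Λ (2 * D + L.θ + 1)
    omega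
  have hl := le_max_left Λ (2 * D + L.θ + 1)
  exact rig_ind L cons cons' hcc hgeo hdv D Λ hΛ _ z z' P P' le_rfl hz hz' h1 h2 hlen i
    (by omega) (by omega)

end Pool.Agent.Helper44.ML
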